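import Mathlib

/-! The local inequality behind `Y ≤ 9 S + P + 6`. -/

set_option autoImplicit false

namespace Pool.Agent.Helper47.YT

open Finset

/-- the flow (times eight) along an edge from a vertex with degree `a + 1` to a vertex with the
larger degree `b + 1` -/
def h8 (a b : ℤ) : ℤ :=
  if a ≤ 0 then -24 else if a = 1 then (if b = 2 then -16 else -24) else
    if a = 3 ∧ b = 4 then 8 else
      max 0 (4 * (a * (a - 1)) * b - 3 * ((a + 1) * a * (a - 1) * (a - 2)) - 24)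

/-- the antisymmetric flow -/
def H8 (a b : ℤ) : ℤ := if a = b then 0 else if a < b then h8 a b else -h8 b a

theorem H8_antisymm (a b : ℤ) : H8 a b = -H8 b a := by
  unfold H8
  rcases lt_trichotomy a b with h | h | h
  · rw [if_neg h.ne, if_pos h, if_neg h.ne', if_neg h.not_gt]
    ring
  · subst h; simp
  · rw [if_neg h.ne', if_neg h.not_gt, if_neg h.ne, if_pos h]

/-- the value to be bounded -/
def lhs {ι : Type} (U : Finset ι) (b : ι → ℤ) (a : ℤ) : ℤ :=
  4 * (a * (a - 1)) * (∑ i ∈ U, b i) - 4 * ((∑ i ∈ U, b i) ^ 2 - ∑ i ∈ U, b i ^ 2)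
    - 3 * ((a + 1) * a * (a - 1) * (a - 2))

/-- for `a ≥ 5`: cost of a neighbour -/
theorem cost_le (a b : ℤ) (ha : 5 ≤ a) (hb : 0 ≤ b) : 24 - H8 a b ≤ a * (a - 1) * b := by
  have hA : 20 ≤ a * (a - 1) := by nlinarith
  unfold H8
  by_cases h0 : b = 0
  · subst h0
    have h1 : a ≠ 0 := by omega
    have h2 : ¬ a < 0 := by omega
    rw [if_neg h1, if_neg h2]
    simp [h8]
  by_cases h1 : b = 1
  · subst h1
    have h1 : a ≠ 1 := by omega
    have h2 : ¬ a < 1 := by omega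
    rw [if_neg h1, if_neg h2]
    have h3 : a ≠ 2 := by omega
    simp [h8, h3]
    nlinarith
  have hb2 : 2 ≤ b := by omega
  rcases lt_trichotomy a b with h | h | h
  · rw [if_neg h.ne, if_pos h]
    have : 0 ≤ h8 a b := by
      unfold h8
      rw [if_neg (by omega), if_neg (by omega), if_neg (by omega)]
      exact le_max_left _ _
    nlinarith
  · subst h
    rw [if_pos rfl]
    nlinarith
  · rw [if_neg h.ne', if_neg h.not_gt]
    unfold h8
    rw [if_neg (by omega), if_neg (by omega), if_neg (by omega)]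
    rw [sub_neg_eq_add]
    rcases max_cases (0 : ℤ) (4 * (b * (b - 1)) * a - 3 * ((b + 1) * b * (b - 1) * (b - 2)) - 24) with
      ⟨h3, _⟩ | ⟨h3, _⟩
    · rw [h3]; nlinarith
    · rw [h3]
      have key : 4 * (b - 1) * a - 3 * ((b + 1) * (b - 1) * (b - 2)) ≤ a * (a - 1) := by
        rcases eq_or_lt_of_le hb2 with h4 | h4
        · rw [← h4]; nlinarith
        · obtain ⟨u, rfl⟩ : ∃ u, b = 3 + u := ⟨b - 3, by ring⟩
          have hu : 0 ≤ u := by omega
          nlinarith [sq_nonneg (2 * a - (4 * (3 + u) - 3)), mul_nonneg hu hu,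
            mul_nonneg hu (mul_nonneg hu hu)]
      nlinarith [mul_le_mul_of_nonneg_left key hb]

theorem alg (A B t q : ℤ) (hA : 20 ≤ A) (hB0 : 0 ≤ B) (ht0 : 0 ≤ t) (hqt : q ≤ B * t)
    (hqt2 : q ≤ t ^ 2) (h11 : 4 * A * B + 24 ≤ 3 * A * (A - 2) + 48) :
    4 * A * B + 24 + t * (5 * A - 8 * B) - 4 * (t ^ 2 - q) ≤ 3 * A * (A - 2) + 48 := by
  have h32 : 20 * A ≤ A ^ 2 := by nlinarith
  have h34 : 3 * A * (A - 2) = 3 * A ^ 2 - 6 * A := by ring
  have h33 : 9 * A * B = 9 * (A * B) := by ring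
  have h33' : 4 * A * B = 4 * (A * B) := by ring
  have h14 : 9 * A * B - 8 * B ^ 2 + 24 ≤ 3 * A * (A - 2) + 48 := by
    have h30 : 0 ≤ (16 * B - 9 * A) ^ 2 := sq_nonneg _
    have h31 : (16 * B - 9 * A) ^ 2 = 256 * B ^ 2 - 288 * (A * B) + 81 * A ^ 2 := by ring
    rw [h31] at h30
    rw [h33, h34]
    linarith
  by_cases h12 : 5 * A ≤ 8 * B
  · have h1 : t * (5 * A - 8 * B) ≤ 0 := mul_nonpos_of_nonneg_of_nonpos ht0 (by linarith)
    linarith
  · push Not at h12
    by_cases h13 : t ≤ B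
    · have h24 : t * (5 * A - 8 * B) ≤ B * (5 * A - 8 * B) :=
        mul_le_mul_of_nonneg_right h13 (by linarith)
      have h25 : B * (5 * A - 8 * B) = 5 * A * B - 8 * B ^ 2 := by ring
      linarith
    · push Not at h13
      have h16 : t * (5 * A - 8 * B) - 4 * (t ^ 2 - q) ≤ t * (5 * A - 4 * B) - 4 * t ^ 2 := by
        have e : t * (5 * A - 4 * B) - 4 * t ^ 2 - (t * (5 * A - 8 * B) - 4 * (t ^ 2 - q))
            = 4 * (B * t - q) := by ring
        linarith
      by_cases h15 : 12 * B ≤ 5 * A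
      · have h17 : 16 * (t * (5 * A - 4 * B) - 4 * t ^ 2) ≤ (5 * A - 4 * B) ^ 2 := by
          have e : (5 * A - 4 * B) ^ 2 - 16 * (t * (5 * A - 4 * B) - 4 * t ^ 2)
            = (8 * t - (5 * A - 4 * B)) ^ 2 := by ring
          have := sq_nonneg (8 * t - (5 * A - 4 * B))
          linarith
        have h18 : 12 * (A * B) ≤ 5 * A ^ 2 := by nlinarith
        have h19 : 12 * B ^ 2 ≤ 5 * (A * B) := by nlinarith
        have h21 : (5 * A - 4 * B) ^ 2 = 25 * A ^ 2 - 40 * (A * B) + 16 * B ^ 2 := by ring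
        rw [h21] at h17
        rw [h34, h33']
        linarith
      · push Not at h15
        have h17 : t * (5 * A - 4 * B) - 4 * t ^ 2 ≤ B * (5 * A - 8 * B) := by
          have e : B * (5 * A - 8 * B) - (t * (5 * A - 4 * B) - 4 * t ^ 2)
            = (t - B) * (4 * t + 8 * B - 5 * A) := by ring
          have := mul_nonneg (by linarith : 0 ≤ t - B) (by linarith : 0 ≤ 4 * t + 8 * B - 5 * A)
          linarith
        have h25 : B * (5 * A - 8 * B) = 5 * A * B - 8 * B ^ 2 := by ring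
        linarith

/-- the inequality at a vertex of degree at least six -/
theorem local_big {ι : Type} [DecidableEq ι] (U : Finset ι) (b : ι → ℤ) (hb : ∀ i ∈ U, 0 ≤ b i)
    (a : ℤ) (ha : 5 ≤ a) (hU : (U.card : ℤ) = a + 1) :
    lhs U b a ≤ 24 * (1 - a) + ∑ i ∈ U, H8 a (b i) := by
  have hne : U.Nonempty := by
    rw [← Finset.card_pos]; omega
  obtain ⟨m, hm, hmax⟩ := Finset.exists_max_image U b hne
  set B := b m with hB
  have hB0 : 0 ≤ B := hb m hm
  have hs : ∑ i ∈ U, b i = B + ∑ i ∈ U.erase m, b i := (Finset.add_sum_erase U b hm).symm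
  have hq : ∑ i ∈ U, b i ^ 2 = B ^ 2 + ∑ i ∈ U.erase m, b i ^ 2 :=
    (Finset.add_sum_erase U (fun i => b i ^ 2) hm).symm
  have hHs : ∑ i ∈ U, (24 - H8 a (b i)) = (24 - H8 a B) + ∑ i ∈ U.erase m, (24 - H8 a (b i)) :=
    (Finset.add_sum_erase U (fun i => 24 - H8 a (b i)) hm).symm
  have hHs2 : ∑ i ∈ U, (24 - H8 a (b i)) = 24 * (a + 1) - ∑ i ∈ U, H8 a (b i) := by
    rw [Finset.sum_sub_distrib, Finset.sum_const, nsmul_eq_mul, hU]; ring
  set t := ∑ i ∈ U.erase m, b i with ht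
  set q := ∑ i ∈ U.erase m, b i ^ 2 with hqd
  have hb' : ∀ i ∈ U.erase m, 0 ≤ b i := fun i hi => hb i (Finset.mem_of_mem_erase hi)
  have ht0 : 0 ≤ t := Finset.sum_nonneg hb'
  have hqt : q ≤ B * t := by
    rw [ht, hqd, Finset.mul_sum]
    apply Finset.sum_le_sum
    intro i hi
    have h1 := hb' i hi
    have h2 := hmax i (Finset.mem_of_mem_erase hi)
    nlinarith
  have hqt2 : q ≤ t ^ 2 := Finset.sum_sq_le_sq_sum_of_nonneg (fun i hi => hb' i hi)
  have hcost : ∑ i ∈ U.erase m, (24 - H8 a (b i)) ≤ a * (a - 1) * t := by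
    rw [ht, Finset.mul_sum]
    apply Finset.sum_le_sum
    intro i hi
    exact cost_le a (b i) ha (hb' i hi)
  have hcB := cost_le a B ha hB0
  set A := a * (a - 1) with hA
  have hA20 : 20 ≤ A := by nlinarith
  have haA : 4 * a ≤ A := by nlinarith
  have h3 : 3 * ((a + 1) * a * (a - 1) * (a - 2)) = 3 * A * (A - 2) := by rw [hA]; ring
  unfold lhs
  rw [hs, hq, h3]
  -- reduce to a statement in A, B, t, q
  suffices h : 4 * A * (B + t) - 4 * ((B + t) ^ 2 - (B ^ 2 + q)) + (24 - H8 a B) + A * t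
      ≤ 3 * A * (A - 2) + 48 by
    have e1 : ∑ i ∈ U, H8 a (b i) = 24 * (a + 1) - ((24 - H8 a B) +
        ∑ i ∈ U.erase m, (24 - H8 a (b i))) := by rw [← hHs, hHs2]; ring
    rw [e1]
    linarith
  by_cases hBa : B ≤ a
  · -- all neighbours are small
    have h5 : (B + t) * (B + t) ≥ 0 := mul_self_nonneg _
    have h6 : B * (B + t) ≤ a * (B + t) := by
      apply mul_le_mul_of_nonneg_right hBa; linarith
    have h7 : 4 * (a * (B + t)) ≤ A * (B + t) := by
      have := mul_le_mul_of_nonneg_right haA (by linarith : 0 ≤ B + t)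
      linarith
    have h8' : 4 * A * (B + t) - 4 * ((B + t) ^ 2 - (B ^ 2 + q)) + (24 - H8 a B) + A * t
        ≤ 6 * A * (B + t) - 4 * (B + t) ^ 2 := by
      nlinarith
    nlinarith [sq_nonneg (8 * (B + t) - 6 * A), sq_nonneg (A - 4)]
  · push Not at hBa
    have hH : H8 a B = max 0 (4 * A * B - 3 * A * (A - 2) - 24) := by
      unfold H8
      rw [if_neg (by omega), if_pos hBa]
      unfold h8
      rw [if_neg (by omega), if_neg (by omega), if_neg (by omega), h3]
    have e2 : (0 : ℤ) ≤ t ^ 2 - q := by linarith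
    rcases max_cases (0 : ℤ) (4 * A * B - 3 * A * (A - 2) - 24) with ⟨h9, h10⟩ | ⟨h9, h10⟩
    · rw [hH, h9]
      -- no extra flow
      have h11 : 4 * A * B + 24 ≤ 3 * A * (A - 2) + 48 := by linarith
      -- target: 4AB + 24 + t (5A - 8B) - 4 (t^2 - q) ≤ ...
      have e3 : 4 * A * (B + t) - 4 * ((B + t) ^ 2 - (B ^ 2 + q)) + (24 - 0) + A * t
          = 4 * A * B + 24 + t * (5 * A - 8 * B) - 4 * (t ^ 2 - q) := by ring
      rw [e3]
      exact alg A B t q hA20 hB0 ht0 hqt hqt2 h11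
    · rw [hH, h9]
      have h11 : 5 * A ≤ 8 * B := by nlinarith
      have h12 : t * (5 * A - 8 * B) ≤ 0 := by nlinarith
      nlinarith

end Pool.Agent.Helper47.YT
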