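import Pool.Agent.Helper47.YT.Local

/-! The local inequality at vertices of small degree, by a finite check. -/

set_option autoImplicit false

namespace Pool.Agent.Helper47.YT

open Finset

/-- exhaustive check over all `k`-tuples of numbers at most `c` -/
def chk (W : ℕ → ℤ) (c : ℕ) (M : ℤ) : ℕ → ℤ → ℤ → Bool
  | 0, _, v => decide (v ≤ M)
  | k + 1, s, v => (List.range (c + 1)).all
      (fun b => chk W c M k (s + b) (v + W b - 8 * b * s))

theorem chk_sound {ι : Type} [DecidableEq ι] (W : ℕ → ℤ) (c : ℕ) (M : ℤ) (k : ℕ) :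
    ∀ (s v : ℤ), chk W c M k s v = true → ∀ (U : Finset ι), U.card = k → ∀ b : ι → ℕ,
      (∀ i ∈ U, b i ≤ c) →
      v + ∑ i ∈ U, W (b i) - 8 * s * (∑ i ∈ U, (b i : ℤ))
        - 4 * ((∑ i ∈ U, (b i : ℤ)) ^ 2 - ∑ i ∈ U, (b i : ℤ) ^ 2) ≤ M := by
  induction k with
  | zero =>
    intro s v h U hU b _
    rw [Finset.card_eq_zero] at hU
    subst hU
    simp only [chk, decide_eq_true_eq] at h
    simpa using h
  | succ k ih =>
    intro s v h U hU b hb
    obtain ⟨u, hu⟩ : U.Nonempty := by rw [← Finset.card_pos]; omega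
    simp only [chk, List.all_eq_true, List.mem_range] at h
    have h1 := h (b u) (by have := hb u hu; omega)
    have h2 := ih _ _ h1 (U.erase u) (by rw [Finset.card_erase_of_mem hu]; omega) b
      (fun i hi => hb i (Finset.mem_of_mem_erase hi))
    rw [← Finset.add_sum_erase U (fun i => W (b i)) hu,
      ← Finset.add_sum_erase U (fun i => (b i : ℤ)) hu,
      ← Finset.add_sum_erase U (fun i => (b i : ℤ) ^ 2) hu]
    refine le_trans (le_of_eq ?_) h2
    ring

theorem e2_mono {ι : Type} [DecidableEq ι] (U : Finset ι) (b b' : ι → ℤ)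
    (h0 : ∀ i ∈ U, 0 ≤ b' i) (h1 : ∀ i ∈ U, b' i ≤ b i) :
    (∑ i ∈ U, b' i) ^ 2 - ∑ i ∈ U, b' i ^ 2 ≤ (∑ i ∈ U, b i) ^ 2 - ∑ i ∈ U, b i ^ 2 := by
  induction U using Finset.induction_on with
  | empty => simp
  | insert u U hu ih =>
    have ih' := ih (fun i hi => h0 i (Finset.mem_insert_of_mem hi))
      (fun i hi => h1 i (Finset.mem_insert_of_mem hi))
    rw [Finset.sum_insert hu, Finset.sum_insert hu, Finset.sum_insert hu, Finset.sum_insert hu]
    have h2 := h0 u (Finset.mem_insert_self u U)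
    have h3 := h1 u (Finset.mem_insert_self u U)
    have h4 : 0 ≤ ∑ i ∈ U, b' i :=
      Finset.sum_nonneg (fun i hi => h0 i (Finset.mem_insert_of_mem hi))
    have h5 : ∑ i ∈ U, b' i ≤ ∑ i ∈ U, b i :=
      Finset.sum_le_sum (fun i hi => h1 i (Finset.mem_insert_of_mem hi))
    have h6 : b' u * ∑ i ∈ U, b' i ≤ b u * ∑ i ∈ U, b i :=
      mul_le_mul h3 h5 h4 (by linarith)
    nlinarith

theorem local_of_chk {ι : Type} [DecidableEq ι] (a : ℤ) (c : ℕ) (W : ℕ → ℤ)
    (hW : ∀ b : ℤ, 0 ≤ b → 4 * (a * (a - 1)) * b + (24 - H8 a b) = W (min b c).toNat)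
    (k : ℕ) (hk : (k : ℤ) = a + 1)
    (hc : chk W c (3 * ((a + 1) * a * (a - 1) * (a - 2)) + 48) k 0 0 = true)
    (U : Finset ι) (b : ι → ℤ) (hb : ∀ i ∈ U, 0 ≤ b i) (hU : (U.card : ℤ) = a + 1) :
    lhs U b a ≤ 24 * (1 - a) + ∑ i ∈ U, H8 a (b i) := by
  have hUk : U.card = k := by omega
  have h1 := chk_sound W c _ k 0 0 hc U hUk (fun i => (min (b i) c).toNat)
    (fun i hi => by
      have : min (b i) (c : ℤ) ≤ c := min_le_right _ _
      omega)
  have h2 : ∑ i ∈ U, W (min (b i) c).toNat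
      = 4 * (a * (a - 1)) * (∑ i ∈ U, b i) + (24 * (a + 1) - ∑ i ∈ U, H8 a (b i)) := by
    rw [Finset.sum_congr rfl (fun i hi => (hW (b i) (hb i hi)).symm), Finset.sum_add_distrib,
      ← Finset.mul_sum, Finset.sum_sub_distrib, Finset.sum_const, nsmul_eq_mul, hU]
    ring
  have h3 : ∀ i ∈ U, (((min (b i) c).toNat : ℕ) : ℤ) = min (b i) c := by
    intro i hi
    have := hb i hi
    rw [Int.toNat_of_nonneg]
    exact le_min this (by positivity)
  have h4 := e2_mono U b (fun i => (((min (b i) c).toNat : ℕ) : ℤ))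
    (fun i _ => by positivity) (fun i hi => by
      change (((min (b i) (c : ℤ)).toNat : ℕ) : ℤ) ≤ b i
      rw [h3 i hi]; exact min_le_left _ _)
  rw [h2] at h1
  unfold lhs
  linarith

/-- tables -/
def W4 (b : ℕ) : ℤ := [0, 48, 128, 176, 216, 264, 312, 360, 408].getD b 0
def W3 (b : ℕ) : ℤ := [0, 24, 72, 96, 112, 120].getD b 0
def W2 (b : ℕ) : ℤ := [0, 16, 40, 48].getD b 0
def W1 (b : ℕ) : ℤ := [0, 24, 40, 48].getD b 0

theorem chk4 : chk W4 8 (3 * ((4 + 1) * 4 * (4 - 1) * (4 - 2)) + 48) 5 0 0 = true := by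
  decide +kernel

theorem chk3 : chk W3 5 (3 * ((3 + 1) * 3 * (3 - 1) * (3 - 2)) + 48) 4 0 0 = true := by
  decide +kernel

theorem chk2 : chk W2 3 (3 * ((2 + 1) * 2 * (2 - 1) * (2 - 2)) + 48) 3 0 0 = true := by
  decide +kernel

theorem chk1 : chk W1 3 (3 * ((1 + 1) * 1 * (1 - 1) * (1 - 2)) + 48) 2 0 0 = true := by
  decide +kernel

theorem table_aux (a : ℤ) (c : ℕ) (W : ℕ → ℤ) 
    (h1 : ∀ b : ℕ, b ≤ c → 4 * (a * (a - 1)) * (b : ℤ) + (24 - H8 a b) = W b)
    (h2 : ∀ b : ℤ, (c : ℤ) < b → 4 * (a * (a - 1)) * b + (24 - H8 a b) = W c) :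
    ∀ b : ℤ, 0 ≤ b → 4 * (a * (a - 1)) * b + (24 - H8 a b) = W (min b c).toNat := by
  intro b hb
  by_cases h : b ≤ c
  · rw [min_eq_left h]
    obtain ⟨n, rfl⟩ := Int.eq_ofNat_of_zero_le hb
    have := h1 n (by exact_mod_cast h)
    simpa using this
  · rw [min_eq_right (by omega)]
    have := h2 b (by omega)
    simpa using this

theorem hW4 : ∀ b : ℤ, 0 ≤ b →
    4 * (4 * (4 - 1)) * b + (24 - H8 4 b) = W4 (min b ((8 : ℕ) : ℤ)).toNat := by
  apply table_aux
  · decide
  · intro b hb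
    have hb' : (8 : ℤ) < b := by exact_mod_cast hb
    unfold H8 h8
    rw [if_neg (by omega), if_pos (by omega), if_neg (by omega), if_neg (by omega),
      if_neg (by omega), max_eq_right (by omega)]
    simp [W4]
    ring

theorem hW3 : ∀ b : ℤ, 0 ≤ b →
    4 * (3 * (3 - 1)) * b + (24 - H8 3 b) = W3 (min b ((5 : ℕ) : ℤ)).toNat := by
  apply table_aux
  · decide
  · intro b hb
    have hb' : (5 : ℤ) < b := by exact_mod_cast hb
    unfold H8 h8
    rw [if_neg (by omega), if_pos (by omega), if_neg (by omega), if_neg (by omega),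
      if_neg (by omega), max_eq_right (by omega)]
    simp [W3]
    ring

theorem hW2 : ∀ b : ℤ, 0 ≤ b →
    4 * (2 * (2 - 1)) * b + (24 - H8 2 b) = W2 (min b ((3 : ℕ) : ℤ)).toNat := by
  apply table_aux
  · decide
  · intro b hb
    have hb' : (3 : ℤ) < b := by exact_mod_cast hb
    unfold H8 h8
    rw [if_neg (by omega), if_pos (by omega), if_neg (by omega), if_neg (by omega),
      if_neg (by omega), max_eq_right (by omega)]
    simp [W2]
    ring

theorem hW1 : ∀ b : ℤ, 0 ≤ b →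
    4 * (1 * (1 - 1)) * b + (24 - H8 1 b) = W1 (min b ((3 : ℕ) : ℤ)).toNat := by
  apply table_aux
  · decide
  · intro b hb
    have hb' : (3 : ℤ) < b := by exact_mod_cast hb
    unfold H8 h8
    rw [if_neg (by omega), if_pos (by omega), if_neg (by omega), if_pos (by omega),
      if_neg (by omega)]
    simp [W1]

/-- the local inequality -/
theorem local_ineq {ι : Type} [DecidableEq ι] (U : Finset ι) (b : ι → ℤ)
    (hb : ∀ i ∈ U, 0 ≤ b i) (a : ℤ) (hU : (U.card : ℤ) = a + 1) :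
    lhs U b a ≤ 24 * (1 - a) + ∑ i ∈ U, H8 a (b i) := by
  by_cases h5 : 5 ≤ a
  · exact local_big U b hb a h5 hU
  push Not at h5
  have ha : -1 ≤ a := by
    have : (0 : ℤ) ≤ U.card := by positivity
    linarith
  interval_cases a
  · have : U = ∅ := by
      rw [← Finset.card_eq_zero]
      have : (U.card : ℤ) = 0 := by rw [hU]; norm_num
      exact_mod_cast this
    subst this
    simp [lhs]
  · have h1 : U.card = 1 := by
      have : (U.card : ℤ) = 1 := by rw [hU]; norm_num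
      exact_mod_cast this
    obtain ⟨u, rfl⟩ := Finset.card_eq_one.1 h1
    have h2 : 0 ≤ b u := hb u (by simp)
    simp only [lhs, Finset.sum_singleton]
    have : -24 ≤ H8 0 (b u) := by
      unfold H8
      split_ifs with h3 h4
      · norm_num
      · simp [h8]
      · omega
    nlinarith
  · exact local_of_chk 1 3 W1 hW1 2 (by norm_num) chk1 U b hb hU
  · exact local_of_chk 2 3 W2 hW2 3 (by norm_num) chk2 U b hb hU
  · exact local_of_chk 3 5 W3 hW3 4 (by norm_num) chk3 U b hb hU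
  · exact local_of_chk 4 8 W4 hW4 5 (by norm_num) chk4 U b hb hU

end Pool.Agent.Helper47.YT
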